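import Mathlib

/-!
# Sliding a chunk past its neighbour (note 3066, section 1, abstract form)

`X`, `Y` chunk spaces, `p` a pairing, `B`, `B'` adjoint projections,
`Q w = ∑ p (Y_i) (X_i - B X_{i-1})` on `w : Fin m → X × Y`. The cyclic shift is joined to the identity
by linear maps which preserve `Q` and the constant sequences and move at most two chunks.
-/

set_option autoImplicit false

namespace Pool.Agent.H17.FU

open Finset

variable {X Y : Type*} [NormedAddCommGroup X] [NormedSpace ℝ X] [NormedAddCommGroup Y]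
  [NormedSpace ℝ Y]

/-- pairing with adjoint projections -/
structure SlD (X Y : Type*) [NormedAddCommGroup X] [NormedSpace ℝ X] [NormedAddCommGroup Y]
    [NormedSpace ℝ Y] where
  p : Y →ₗ[ℝ] X →ₗ[ℝ] ℝ
  B : X →L[ℝ] X
  B' : Y →L[ℝ] Y
  idem : ∀ x, B (B x) = B x
  idem' : ∀ y, B' (B' y) = B' y
  adj : ∀ y x, p y (B x) = p (B' y) x

variable (D : SlD X Y) {m : ℕ} [NeZero m]

/-- the quadratic form -/
def SlQ (m : ℕ) [NeZero m] (w : Fin m → X × Y) : ℝ :=
  ∑ i : Fin m, D.p (w i).2 ((w i).1 - D.B (w (i - 1)).1)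

/-- new chunk at position `k + 1` -/
def nT (k : Fin m) (c s θ : ℝ) (w : Fin m → X × Y) : X × Y :=
  let a := D.B (w (k - 1)).1
  let d := D.B' (w (k + 1 + 1)).2
  let al := (w k).1 - a
  let be := (w k).2 - D.B' (w (k + 1)).2
  let xi := (w (k + 1)).1 - a
  let et := (w (k + 1)).2 - d
  (-s • (al - θ • D.B xi) + c • xi + a, -s • be + c • (θ • D.B' be + et) + d)

/-- new chunk at position `k` -/
def nS (k : Fin m) (c s θ : ℝ) (w : Fin m → X × Y) : X × Y :=
  let a := D.B (w (k - 1)).1
  let d := D.B' (w (k + 1 + 1)).2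
  let al := (w k).1 - a
  let be := (w k).2 - D.B' (w (k + 1)).2
  let xi := (w (k + 1)).1 - a
  let et := (w (k + 1)).2 - d
  (c • (al - θ • D.B xi) + s • xi + a,
    c • be + s • (θ • D.B' be + et) + D.B' (nT D k c s θ w).2)

/-- the slide as a function -/
def slF (k : Fin m) (c s θ : ℝ) (w : Fin m → X × Y) : Fin m → X × Y := fun i =>
  if i = k then nS D k c s θ w else if i = k + 1 then nT D k c s θ w else w i

theorem slF_k (k : Fin m) (c s θ : ℝ) (w : Fin m → X × Y) :
    slF D k c s θ w k = nS D k c s θ w := by simp [slF]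

theorem slF_k1 (k : Fin m) (hk : k + 1 ≠ k) (c s θ : ℝ) (w : Fin m → X × Y) :
    slF D k c s θ w (k + 1) = nT D k c s θ w := by simp [slF, hk]

theorem slF_ne (k i : Fin m) (h : i ≠ k) (h1 : i ≠ k + 1) (c s θ : ℝ) (w : Fin m → X × Y) :
    slF D k c s θ w i = w i := by simp [slF, h, h1]

/-- the slide as a linear map -/
def slL (k : Fin m) (c s θ : ℝ) : (Fin m → X × Y) →ₗ[ℝ] (Fin m → X × Y) where
  toFun := slF D k c s θ
  map_add' w w' := by
    funext i
    have hT : nT D k c s θ (w + w') = nT D k c s θ w + nT D k c s θ w' := by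
      ext
      · simp only [nT, Pi.add_apply, Prod.fst_add, Prod.snd_add, map_add, map_sub]
        module
      · simp only [nT, Pi.add_apply, Prod.fst_add, Prod.snd_add, map_add, map_sub]
        module
    have hS : nS D k c s θ (w + w') = nS D k c s θ w + nS D k c s θ w' := by
      ext
      · simp only [nS, Pi.add_apply, Prod.fst_add, Prod.snd_add, map_add, map_sub]
        module
      · simp only [nS, hT, Pi.add_apply, Prod.fst_add, Prod.snd_add, map_add, map_sub]
        module
    by_cases h : i = k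
    · subst h
      simp only [slF_k, Pi.add_apply, hS]
    · by_cases h1 : i = k + 1
      · simp only [slF, Pi.add_apply, if_neg h, if_pos h1, hT]
      · simp only [slF, Pi.add_apply, if_neg h, if_neg h1]
  map_smul' r w := by
    funext i
    have hT : nT D k c s θ (r • w) = r • nT D k c s θ w := by
      ext
      · simp only [nT, Pi.smul_apply, Prod.smul_fst, Prod.smul_snd, map_smul, map_sub]
        module
      · simp only [nT, Pi.smul_apply, Prod.smul_fst, Prod.smul_snd, map_smul, map_sub]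
        module
    have hS : nS D k c s θ (r • w) = r • nS D k c s θ w := by
      ext
      · simp only [nS, Pi.smul_apply, Prod.smul_fst, Prod.smul_snd, map_smul, map_sub]
        module
      · simp only [nS, hT, Pi.smul_apply, Prod.smul_fst, Prod.smul_snd, map_smul, map_sub]
        module
    by_cases h : i = k
    · subst h
      simp only [slF_k, Pi.smul_apply, hS, RingHom.id_apply]
    · by_cases h1 : i = k + 1
      · simp only [slF, Pi.smul_apply, if_neg h, if_pos h1, hT, RingHom.id_apply]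
      · simp only [slF, Pi.smul_apply, if_neg h, if_neg h1, RingHom.id_apply]


theorem slQ_alg (c s θ : ℝ) (hcs : c ^ 2 + s ^ 2 = 1) (a0 Xk X1 X2 : X) (Yk Y1 Y2 : Y)
    (nS1 nT1 : X) (nS2 nT2 : Y)
    (h1 : nT1 = -s • ((Xk - D.B a0) - θ • D.B (X1 - D.B a0)) + c • (X1 - D.B a0) + D.B a0)
    (h2 : nT2 = -s • (Yk - D.B' Y1) + c • (θ • D.B' (Yk - D.B' Y1) + (Y1 - D.B' Y2)) + D.B' Y2)
    (h3 : nS1 = c • ((Xk - D.B a0) - θ • D.B (X1 - D.B a0)) + s • (X1 - D.B a0) + D.B a0)
    (h4 : nS2 = c • (Yk - D.B' Y1) + s • (θ • D.B' (Yk - D.B' Y1) + (Y1 - D.B' Y2)) + D.B' nT2) :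
    D.p nS2 (nS1 - D.B a0) + D.p nT2 (nT1 - D.B nS1) + D.p Y2 (X2 - D.B nT1) =
      D.p Yk (Xk - D.B a0) + D.p Y1 (X1 - D.B Xk) + D.p Y2 (X2 - D.B X1) := by
  have e1 : D.p nS2 (nS1 - D.B a0) + D.p nT2 (nT1 - D.B nS1) + D.p Y2 (X2 - D.B nT1) -
      (D.p Yk (Xk - D.B a0) + D.p Y1 (X1 - D.B Xk) + D.p Y2 (X2 - D.B X1)) =
      (c ^ 2 + s ^ 2 - 1) * (D.p (Yk - D.B' Y1) ((Xk - D.B a0) - θ • D.B (X1 - D.B a0)) +
        D.p (θ • D.B' (Yk - D.B' Y1) + (Y1 - D.B' Y2)) (X1 - D.B a0)) := by
    subst h1 h3 h4 h2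
    simp only [map_add, map_sub, map_smul, D.idem, D.idem', D.adj, LinearMap.add_apply,
      LinearMap.sub_apply, LinearMap.smul_apply, smul_eq_mul]
    ring
  rw [hcs] at e1
  linarith

/-- the positions around `k` are different -/
structure Dst (k : Fin m) : Prop where
  a : k + 1 ≠ k
  b : k - 1 ≠ k
  c : k - 1 ≠ k + 1
  d : k + 1 + 1 ≠ k
  e : k + 1 + 1 ≠ k + 1

theorem SlQ_slide {k : Fin m} (hk : Dst k) (c s θ : ℝ) (hcs : c ^ 2 + s ^ 2 = 1)
    (w : Fin m → X × Y) : SlQ D m (slF D k c s θ w) = SlQ D m w := by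
  classical
  rw [← sub_eq_zero]
  unfold SlQ
  rw [← Finset.sum_sub_distrib]
  have hsub : ({k, k + 1, k + 1 + 1} : Finset (Fin m)) ⊆ univ := subset_univ _
  rw [← Finset.sum_subset hsub]
  · rw [Finset.sum_insert (by
      simp only [Finset.mem_insert, Finset.mem_singleton, not_or]
      exact ⟨hk.a.symm, hk.d.symm⟩), Finset.sum_insert (by
      simp only [Finset.mem_singleton]; exact hk.e.symm), Finset.sum_singleton]
    have e1 : k + 1 - 1 = k := add_sub_cancel_right _ _
    have e2 : k + 1 + 1 - 1 = k + 1 := add_sub_cancel_right _ _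
    rw [e1, e2, slF_k, slF_k1 D k hk.a, slF_ne D k (k - 1) hk.b hk.c, slF_ne D k (k + 1 + 1) hk.d hk.e]
    have := slQ_alg D c s θ hcs (w (k - 1)).1 (w k).1 (w (k + 1)).1 (w (k + 1 + 1)).1 (w k).2
      (w (k + 1)).2 (w (k + 1 + 1)).2 (nS D k c s θ w).1 (nT D k c s θ w).1 (nS D k c s θ w).2
      (nT D k c s θ w).2 rfl rfl rfl rfl
    linarith
  · intro i _ hi
    simp only [Finset.mem_insert, Finset.mem_singleton, not_or] at hi
    obtain ⟨h1, h2, h3⟩ := hi
    have h4 : i - 1 ≠ k := fun h => h2 (by rw [← h, sub_add_cancel])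
    have h5 : i - 1 ≠ k + 1 := fun h => h3 (by rw [← h, sub_add_cancel])
    rw [slF_ne D k i h1 h2, slF_ne D k (i - 1) h4 h5, sub_self]


theorem slF_zero (k : Fin m) (w : Fin m → X × Y) : slF D k 1 0 0 w = w := by
  have hT : nT D k 1 0 0 w = w (k + 1) := by
    ext
    · simp [nT]
    · simp [nT]
  have hS : nS D k 1 0 0 w = w k := by
    ext
    · simp [nS]
    · simp [nS, hT]
  funext i
  by_cases h : i = k
  · rw [h, slF_k, hS]
  · by_cases h1 : i = k + 1
    · simp only [slF, if_neg h, if_pos h1, hT]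
      rw [h1]
    · rw [slF_ne D k i h h1]

theorem nT_end1 (k : Fin m) (w : Fin m → X × Y) :
    (nT D k 0 1 1 w).1 - D.B (w (k + 1)).1 = -((w k).1 - D.B (w (k - 1)).1) := by
  simp only [nT, map_sub, D.idem]
  module

theorem nT_end2 (k : Fin m) (w : Fin m → X × Y) :
    (nT D k 0 1 1 w).2 - D.B' (w (k + 1 + 1)).2 = -((w k).2 - D.B' (w (k + 1)).2) := by
  simp only [nT, map_sub, D.idem']
  module

theorem nS_end (k : Fin m) (w : Fin m → X × Y) : nS D k 0 1 1 w = w (k + 1) := by
  ext
  · simp only [nS, map_sub, D.idem]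
    module
  · simp only [nS, nT, map_sub, map_add, map_smul, D.idem']
    module

theorem slF_const (k : Fin m) (c s θ : ℝ) (x : X) (y : Y) (hx : D.B x = x) (hy : D.B' y = y) :
    slF D k c s θ (fun _ => (x, y)) = fun _ => (x, y) := by
  have hT : nT D k c s θ (fun _ => (x, y)) = (x, y) := by
    ext
    · simp [nT, hx]
    · simp [nT, hy]
  have hS : nS D k c s θ (fun _ => (x, y)) = (x, y) := by
    ext
    · simp [nS, hx]
    · simp [nS, hT, hy]
  funext i
  by_cases h : i = k
  · rw [h, slF_k, hS]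
  · by_cases h1 : i = k + 1
    · simp only [slF, if_neg h, if_pos h1, hT]
    · rw [slF_ne D k i h h1]

/-- a state after `k` slides: `π` = the chunks at the positions different from `k` -/
structure Sta (k : Fin m) (π : Equiv.Perm (Fin m)) (e : ℝ)
    (T : (Fin m → X × Y) → (Fin m → X × Y)) : Prop where
  quad : ∀ w, SlQ D m (T w) = SlQ D m w
  const : ∀ (x : X) (y : Y), D.B x = x → D.B' y = y → T (fun _ => (x, y)) = fun _ => (x, y)
  perm : ∀ i, i ≠ k → ∀ w, T w i = w (π i)
  relX : ∀ w, (T w k).1 - D.B (T w (k - 1)).1 = e • ((w 0).1 - D.B (w (-1)).1)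
  relY : ∀ w, (T w k).2 - D.B' (T w (k + 1)).2 = e • ((w 0).2 - D.B' (w 1).2)

theorem Sta_zero : Sta D (0 : Fin m) 1 1 id where
  quad _ := rfl
  const _ _ _ _ := rfl
  perm _ _ _ := rfl
  relX w := by simp
  relY w := by simp

theorem Sta_succ {k : Fin m} (hk : Dst k) {π : Equiv.Perm (Fin m)} {e : ℝ}
    {T : (Fin m → X × Y) → (Fin m → X × Y)} (h : Sta D k π e T) :
    Sta D (k + 1) (π * Equiv.swap k (k + 1)) (-e) (fun w => slF D k 0 1 1 (T w)) where
  quad w := by rw [SlQ_slide D hk 0 1 1 (by norm_num), h.quad]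
  const x y hx hy := by rw [h.const x y hx hy, slF_const D k 0 1 1 x y hx hy]
  perm i hi w := by
    by_cases h1 : i = k
    · subst h1
      rw [slF_k, nS_end, h.perm _ hk.a, Equiv.Perm.mul_apply, Equiv.swap_apply_left]
    · rw [slF_ne D k i h1 hi, h.perm i h1, Equiv.Perm.mul_apply,
        Equiv.swap_apply_of_ne_of_ne h1 hi]
  relX w := by
    rw [slF_k1 D k hk.a, add_sub_cancel_right, slF_k, nS_end, nT_end1, h.relX, neg_smul]
  relY w := by
    rw [slF_k1 D k hk.a, slF_ne D k (k + 1 + 1) hk.d hk.e, nT_end2, h.relY, neg_smul]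

/-- the sum over the chunks changes by at most four terms -/
theorem Sta_sum {k : Fin m} (hk : Dst k) {π : Equiv.Perm (Fin m)} {e : ℝ}
    {T : (Fin m → X × Y) → (Fin m → X × Y)} (h : Sta D k π e T) (c s θ : ℝ)
    {g : X × Y → ℝ} {C : ℝ} (hg : ∀ v, |g v| ≤ C) (w : Fin m → X × Y) :
    |∑ i, g (slF D k c s θ (T w) i) - ∑ i, g (w i)| ≤ 4 * C := by
  classical
  rw [← Equiv.sum_comp π (fun i => g (w i)), ← Finset.sum_sub_distrib]
  have hsub : ({k, k + 1} : Finset (Fin m)) ⊆ univ := subset_univ _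
  rw [← Finset.sum_subset hsub]
  · rw [Finset.sum_insert (by
      simp only [Finset.mem_singleton]; exact hk.a.symm), Finset.sum_singleton]
    have h1 := hg (slF D k c s θ (T w) k)
    have h2 := hg (w (π k))
    have h3 := hg (slF D k c s θ (T w) (k + 1))
    have h4 := hg (w (π (k + 1)))
    rw [abs_le] at *
    constructor <;> linarith [h1.1, h1.2, h2.1, h2.2, h3.1, h3.2, h4.1, h4.2]
  · intro i _ hi
    simp only [Finset.mem_insert, Finset.mem_singleton, not_or] at hi
    rw [slF_ne D k i hi.1 hi.2, h.perm i hi.1, sub_self]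


/-! ### All slides -/

theorem Fin_one_ne (hm : 2 ≤ m) : (1 : Fin m) ≠ 0 := by
  intro h
  have h1 := congrArg Fin.val h
  rw [Fin.val_one', Fin.val_zero, Nat.mod_eq_of_lt (by omega)] at h1
  omega

theorem Fin_two_ne (hm : 3 ≤ m) : (1 + 1 : Fin m) ≠ 0 := by
  intro h
  have h1 := congrArg Fin.val h
  rw [Fin.val_add, Fin.val_one', Fin.val_zero, Nat.mod_eq_of_lt (by omega : 1 < m),
    Nat.mod_eq_of_lt (by omega)] at h1
  omega

theorem Dst_all (hm : 3 ≤ m) (k : Fin m) : Dst k where
  a h := Fin_one_ne (m := m) (by omega) (by simpa using h)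
  b h := Fin_one_ne (m := m) (by omega) (by simpa using h)
  c h := Fin_two_ne (m := m) hm (by
    have h1 : k - 1 + 1 = k + 1 + 1 := by rw [h]
    rw [sub_add_cancel, add_assoc] at h1
    simpa using h1.symm)
  d h := Fin_two_ne (m := m) hm (by rw [add_assoc] at h; simpa using h)
  e h := Fin_one_ne (m := m) (by omega) (by simpa using h)

/-- the position after `j` slides -/
def pos (m : ℕ) [NeZero m] (j : ℕ) : Fin m := Fin.ofNat m j

theorem pos_zero : pos m 0 = 0 := by
  apply Fin.ext
  change 0 % m = ((0 : Fin m) : ℕ)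
  rw [Fin.val_zero, Nat.zero_mod]

theorem pos_succ (j : ℕ) : pos m (j + 1) = pos m j + 1 := by
  apply Fin.ext
  rw [Fin.val_add, Fin.val_one']
  change (j + 1) % m = (j % m + 1 % m) % m
  rw [← Nat.add_mod]

theorem pos_val {j : ℕ} (h : j < m) : (pos m j : ℕ) = j := Nat.mod_eq_of_lt h

/-- the permutation after `j` slides -/
def prm (m : ℕ) [NeZero m] : ℕ → Equiv.Perm (Fin m)
  | 0 => 1
  | j + 1 => prm m j * Equiv.swap (pos m j) (pos m j + 1)

theorem prm_spec : ∀ j, j < m → ∀ i : Fin m, ((i : ℕ) < j → prm m j i = i + 1) ∧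
    ((i : ℕ) = j → prm m j i = 0) ∧ (j < (i : ℕ) → prm m j i = i) := by
  intro j
  induction j with
  | zero =>
    intro _ i
    refine ⟨fun h => absurd h (Nat.not_lt_zero _), fun h => ?_, fun _ => rfl⟩
    change i = 0
    apply Fin.ext
    rw [h, Fin.val_zero]
  | succ j ih =>
    intro hj i
    have hj' : j < m := by omega
    have e1 : (pos m j : ℕ) = j := pos_val hj'
    have e2 : ((pos m j + 1 : Fin m) : ℕ) = j + 1 := by rw [← pos_succ, pos_val hj]
    have hp : prm m (j + 1) i = prm m j (Equiv.swap (pos m j) (pos m j + 1) i) := rfl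
    rw [hp]
    refine ⟨fun h => ?_, fun h => ?_, fun h => ?_⟩
    · by_cases hi : (i : ℕ) = j
      · have : i = pos m j := Fin.ext (by rw [hi, e1])
        rw [this, Equiv.swap_apply_left]
        exact (ih hj' _).2.2 (by rw [e2]; omega)
      · rw [Equiv.swap_apply_of_ne_of_ne (fun h' => hi (by rw [h', e1]))
          (fun h' => by rw [h', e2] at h; omega)]
        exact (ih hj' i).1 (by omega)
    · have : i = pos m j + 1 := Fin.ext (by rw [h, e2])
      rw [this, Equiv.swap_apply_right]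
      exact (ih hj' _).2.1 e1
    · rw [Equiv.swap_apply_of_ne_of_ne (fun h' => by rw [h', e1] at h; omega)
          (fun h' => by rw [h', e2] at h; omega)]
      exact (ih hj' i).2.2 (by omega)

variable [FiniteDimensional ℝ X] [FiniteDimensional ℝ Y]

/-- the slide as a continuous linear map -/
noncomputable def slC (k : Fin m) (c s θ : ℝ) : (Fin m → X × Y) →L[ℝ] (Fin m → X × Y) :=
  LinearMap.toContinuousLinearMap (slL D k c s θ)

theorem slC_apply (k : Fin m) (c s θ : ℝ) (w : Fin m → X × Y) :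
    slC D k c s θ w = slF D k c s θ w := rfl

/-- linear maps with bounded effect -/
def GoodS (D : SlD X Y) (m : ℕ) [NeZero m] : Set ((Fin m → X × Y) →L[ℝ] (Fin m → X × Y)) :=
  {T | (∀ w, SlQ D m (T w) = SlQ D m w) ∧
    (∀ (x : X) (y : Y), D.B x = x → D.B' y = y → T (fun _ => (x, y)) = fun _ => (x, y)) ∧
    ∀ (g : X × Y → ℝ) (C : ℝ), (∀ v, |g v| ≤ C) → ∀ w, |∑ i, g (T w i) - ∑ i, g (w i)| ≤ 4 * C}

theorem slC_cont (k : Fin m) : Continuous fun θ : ℝ =>
    slC D k (Real.cos (Real.pi / 2 * θ)) (Real.sin (Real.pi / 2 * θ)) θ := by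
  rw [continuous_clm_apply]
  intro w
  refine continuous_pi fun i => ?_
  simp only [slC_apply]
  have hT : Continuous fun θ : ℝ =>
      nT D k (Real.cos (Real.pi / 2 * θ)) (Real.sin (Real.pi / 2 * θ)) θ w := by
    unfold nT
    fun_prop
  have hS : Continuous fun θ : ℝ =>
      nS D k (Real.cos (Real.pi / 2 * θ)) (Real.sin (Real.pi / 2 * θ)) θ w := by
    unfold nS
    fun_prop
  by_cases h : i = k
  · simp only [h, slF_k]; exact hS
  · by_cases h1 : i = k + 1
    · simp only [slF, if_neg h, if_pos h1]; exact hT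
    · simp only [slF, if_neg h, if_neg h1]; exact continuous_const

theorem slide_step (hm : 3 ≤ m) (j : ℕ) : ∃ T : (Fin m → X × Y) →L[ℝ] (Fin m → X × Y),
    Sta D (pos m j) (prm m j) ((-1) ^ j) T ∧
      JoinedIn (GoodS D m) (ContinuousLinearMap.id ℝ _) T := by
  induction j with
  | zero =>
    refine ⟨ContinuousLinearMap.id ℝ _, ?_, ?_⟩
    · rw [pos_zero, pow_zero]
      exact Sta_zero D
    · refine JoinedIn.refl ⟨fun _ => rfl, fun _ _ _ _ => rfl, fun g C hg w => ?_⟩
      have : 0 ≤ C := (abs_nonneg _).trans (hg 0)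
      simp only [ContinuousLinearMap.id_apply, sub_self, abs_zero]
      linarith
  | succ j ih =>
    obtain ⟨T, hT, hJ⟩ := ih
    have hk := Dst_all hm (pos m j)
    refine ⟨(slC D (pos m j) 0 1 1).comp T, ?_, hJ.trans (JoinedIn.ofLine
      (f := fun θ => (slC D (pos m j) (Real.cos (Real.pi / 2 * θ)) (Real.sin (Real.pi / 2 * θ))
        θ).comp T) ?_ ?_ ?_ ?_)⟩
    · have := Sta_succ D hk hT
      rw [pos_succ, pow_succ, mul_neg_one]
      exact this
    · exact ((slC_cont D (pos m j)).clm_comp continuous_const).continuousOn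
    · ext1 w
      simp only [mul_zero, Real.cos_zero, Real.sin_zero, ContinuousLinearMap.comp_apply,
        slC_apply, slF_zero]
    · simp only [mul_one, Real.cos_pi_div_two, Real.sin_pi_div_two]
    · rintro _ ⟨θ, -, rfl⟩
      refine ⟨fun w => ?_, fun x y hx hy => ?_, fun g C hg w => ?_⟩
      · simp only [ContinuousLinearMap.comp_apply, slC_apply]
        rw [SlQ_slide D hk _ _ _ (Real.cos_sq_add_sin_sq _), hT.quad]
      · simp only [ContinuousLinearMap.comp_apply, slC_apply]
        rw [hT.const x y hx hy, slF_const D _ _ _ _ x y hx hy]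
      · simp only [ContinuousLinearMap.comp_apply, slC_apply]
        exact Sta_sum D hk hT _ _ _ hg w

/-- the cyclic shift of the chunks -/
noncomputable def shC (X Y : Type*) [NormedAddCommGroup X] [NormedSpace ℝ X]
    [NormedAddCommGroup Y] [NormedSpace ℝ Y] (m : ℕ) [NeZero m] :
    (Fin m → X × Y) →L[ℝ] (Fin m → X × Y) :=
  ContinuousLinearMap.pi fun i => ContinuousLinearMap.proj (R := ℝ) (φ := fun _ : Fin m => X × Y)
    (i + 1)

omit [FiniteDimensional ℝ X] [FiniteDimensional ℝ Y] in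
theorem shC_apply (w : Fin m → X × Y) (i : Fin m) : shC X Y m w i = w (i + 1) := rfl

/-- **Phase slip, linear part.** -/
theorem slide_joined (hm : Odd m) :
    JoinedIn (GoodS D m) (ContinuousLinearMap.id ℝ _) (shC X Y m) := by
  by_cases h1 : m = 1
  · subst h1
    have : shC X Y 1 = ContinuousLinearMap.id ℝ _ := by
      ext1 w
      funext i
      rw [shC_apply, Subsingleton.elim (i + 1) i]
      rfl
    rw [this]
    refine JoinedIn.refl ⟨fun _ => rfl, fun _ _ _ _ => rfl, fun g C hg w => ?_⟩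
    have : 0 ≤ C := (abs_nonneg _).trans (hg 0)
    simp only [ContinuousLinearMap.id_apply, sub_self, abs_zero]
    linarith
  · have hm3 : 3 ≤ m := by
      obtain ⟨a, ha⟩ := hm
      omega
    obtain ⟨T, hT, hJ⟩ := slide_step D hm3 (m - 1)
    have hev : Even (m - 1) := by
      obtain ⟨a, ha⟩ := hm
      exact ⟨a, by omega⟩
    rw [hev.neg_one_pow] at hT
    have hk0 : pos m (m - 1) + 1 = 0 := by
      rw [← pos_succ, Nat.sub_add_cancel (by omega)]
      apply Fin.ext
      change m % m = ((0 : Fin m) : ℕ)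
      rw [Nat.mod_self, Fin.val_zero]
    set k := pos m (m - 1) with hk
    have hkv : (k : ℕ) = m - 1 := pos_val (by omega)
    have hp : ∀ i : Fin m, i ≠ k → ∀ w, T w i = w (i + 1) := by
      intro i hi w
      rw [hT.perm i hi w]
      congr 1
      refine (prm_spec (m - 1) (by omega) i).1 ?_
      have h2 := i.2
      have h3 : (i : ℕ) ≠ m - 1 := fun h => hi (Fin.ext (by rw [h, hkv]))
      omega
    have hd := Dst_all hm3 k
    have hneg : (-1 : Fin m) = k := by
      rw [eq_comm, ← sub_eq_zero, sub_neg_eq_add, hk0]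
    have hTs : T = shC X Y m := by
      ext1 w
      funext i
      rw [shC_apply]
      by_cases hi : i = k
      · rw [hi, hk0]
        have hX := hT.relX w
        have hY := hT.relY w
        rw [hp (k - 1) hd.b, sub_add_cancel, hneg, one_smul] at hX
        rw [hk0, hp 0 (fun h => hd.a (by rw [hk0, h])), zero_add, one_smul] at hY
        exact Prod.ext (sub_left_injective hX) (sub_left_injective hY)
      · exact hp i hi w
    rw [← hTs]
    exact hJ

end Pool.Agent.H17.FU
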